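import Pool.Agent.H.MP_f6f14e_gt.C

namespace Pool.Agent.Results.MP_f6f14e_gt.Yes

open Set Filter Topology Metric Pool.Agent.H.MP_f6f14e_gt

/-- A metric tree: compact, connected, locally connected, with more than one point, and any two
distinct points are the endpoints of a unique Jordan arc. -/
def IsMetricTree (T : Type) [MetricSpace T] : Prop :=
  CompactSpace T ∧ ConnectedSpace T ∧ LocallyConnectedSpace T ∧ Nontrivial T ∧
    ∀ x y : T, x ≠ y → ∃! A : Set T, IsArc A x y

/-- Bounded turning. -/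
def BoundedTurning (T : Type) [MetricSpace T] : Prop :=
  ∃ B : ℝ, 1 ≤ B ∧ ∀ u v : T, ∃ E : Set T, IsCompact E ∧ IsConnected E ∧ u ∈ E ∧ v ∈ E ∧
    diam E ≤ B * dist u v

/-- The `δ`-component of `A` containing `x`: points joined to `x` by a `δ`-chain inside `A`. -/
def Comp {T : Type} [MetricSpace T] (δ : ℝ) (A : Set T) (x : T) : Set T :=
  {y | Relation.ReflTransGen (fun a b => a ∈ A ∧ b ∈ A ∧ dist a b ≤ δ) x y}

/-- Lipschitz light maps to the real line. -/
def LipschitzLight {T : Type} [MetricSpace T] (f : T → ℝ) : Prop :=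
  ∃ C : ℝ, 1 ≤ C ∧ (∀ x y, dist (f x) (f y) ≤ C * dist x y) ∧
    ∀ W : Set ℝ, Bornology.IsBounded W → 0 < diam W → ∀ x ∈ f ⁻¹' W,
      diam (Comp (diam W) (f ⁻¹' W) x) ≤ C * diam W

theorem result (T : Type) [MetricSpace T] (hT : IsMetricTree T) (hB : BoundedTurning T) :
    ∃ f : T → ℝ, LipschitzLight f := by
  obtain ⟨_, _, -, _, ua⟩ := hT
  obtain ⟨B, B1, bt⟩ := hB
  have ua : UA T := ua
  obtain ⟨C, hC⟩ : ∃ C, C = 2 * (4 * B + 5) := ⟨_, rfl⟩
  have C1 : 1 ≤ C := by linarith
  have h : Tr T C := ⟨ua, by linarith, hC ▸ ua.D_le (by linarith) fun u v => by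
    obtain ⟨E, e1, e2, e3, e4, e5⟩ := bt u v
    exact ⟨E, e2.isPreconnected, e3, e4, fun a ha =>
      (dist_le_diam_of_mem e1.isBounded ha e3).trans e5⟩⟩
  obtain ⟨o⟩ : Nonempty T := inferInstance
  obtain ⟨f, f1, f2⟩ := h.main o
  have l1 : ∀ x y, |f x - f y| ≤ 20 * D x y := fun x y => by
    obtain ⟨m, m1, m2, m3⟩ := ua.median o x y
    have a1 := f1 x m m1
    have a2 := f1 y m m2
    have a3 := ua.D_left m3
    have a4 := ua.D_right m3
    rw [ua.D_symm] at a3
    rw [abs_sub_comm] at a2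
    linarith [abs_sub_le (f x) (f m) (f y)]
  refine ⟨f, 544 * (40 * C + 1), by linarith, fun x y => ?_, fun W hW r0 x hx => ?_⟩
  · have := h.le x y
    have := l1 x y
    have := dist_nonneg (x := x) (y := y)
    rw [Real.dist_eq]
    nlinarith
  · have key : ∀ y ∈ Comp (diam W) (f ⁻¹' W) x, ∀ z ∈ I x y,
        ∃ w ∈ W, |f z - w| ≤ 20 * (C * diam W) := by
      intro y hy
      induction hy with
      | refl =>
        intro z hz
        rw [I_self] at hz
        exact ⟨f x, hx, by rw [show z = x from hz, sub_self, abs_zero]; positivity⟩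
      | @tail a b _ hab ih =>
        intro z hz
        rcases ua.tri a x b hz with k | k
        · exact ih z k
        · refine ⟨f a, hab.1, ?_⟩
          have a1 := l1 a z
          have a2 := ua.D_left k
          have a3 := h.le a b
          have a4 := mul_le_mul_of_nonneg_left hab.2.2 h.pos.le
          rw [abs_sub_comm]
          linarith
    have osc : ∀ y ∈ Comp (diam W) (f ⁻¹' W) x, ∀ a ∈ I x y, ∀ b ∈ I x y,
        |f a - f b| ≤ (40 * C + 1) * diam W := by
      intro y hy a ha b hb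
      obtain ⟨w, w1, w2⟩ := key y hy a ha
      obtain ⟨v, v1, v2⟩ := key y hy b hb
      have := dist_le_diam_of_mem hW w1 v1
      rw [Real.dist_eq] at this
      rw [abs_sub_comm] at v2
      linarith [abs_sub_le (f a) w (f b), abs_sub_le w v (f b)]
    refine (diam_le_of_subset_closedBall (x := x) (r := 272 * ((40 * C + 1) * diam W))
      (by positivity) fun y hy => ?_).trans (le_of_eq (by ring))
    obtain ⟨m, m1, m2, m3⟩ := ua.median o x y
    obtain ⟨a, a1, b, b1, c⟩ := f2 x m m1
    obtain ⟨a', a1', b', b1', c'⟩ := f2 y m m2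
    rw [ua.symm] at a1 b1
    have k1 := osc y hy a (ua.sub_left m3 a1) b (ua.sub_left m3 b1)
    have k2 := osc y hy a' (ua.sub_right m3 a1') b' (ua.sub_right m3 b1')
    rw [mem_closedBall, dist_comm]
    linarith [ua.dist_le x y, ua.D_tri x m y, ua.D_symm x m]

end Pool.Agent.Results.MP_f6f14e_gt.Yes
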